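import Pool.Agent.H17.L.R_pool_sql_team_seeded_620a6dc7.Helper478_Bases.VkWeyl

/-!
# Weyl sums of polynomials with a leading coefficient of bounded type
-/

set_option autoImplicit false

namespace Pool.Agent.Helper478.Bases

open Finset Polynomial
open Pool.Agent.H469R2.NK (e norm_e e_add e_zero conj_e)
open Pool.Agent.Y957.VK (TT)

lemma shift_one (g : ℕ → ℂ) (hg : ∀ n, ‖g n‖ ≤ 1) (R h : ℕ) :
    ‖∑ n ∈ Ioc 0 R, g n - ∑ n ∈ Ioc 0 R, g (n + h)‖ ≤ 2 * h := by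
  have hb : ∀ a b : ℕ, ‖∑ n ∈ Ioc a (a + b), g n‖ ≤ b := by
    intro a b
    refine (norm_sum_le _ _).trans ?_
    refine (sum_le_sum fun n _ => hg n).trans ?_
    simp
  have h1 : ∑ n ∈ Ioc 0 R, g (n + h) = ∑ n ∈ Ioc (0 + h) (R + h), g n := by
    rw [← Finset.map_add_right_Ioc, Finset.sum_map]
    rfl
  have h2 : ∑ n ∈ Ioc 0 R, g n + ∑ n ∈ Ioc R (R + h), g n =
      ∑ n ∈ Ioc 0 (0 + h), g n + ∑ n ∈ Ioc (0 + h) (R + h), g n := by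
    rw [Finset.sum_Ioc_consecutive g (Nat.zero_le _) (by omega),
      Finset.sum_Ioc_consecutive g (by omega) (by omega)]
  have h3 : ∑ n ∈ Ioc 0 R, g n - ∑ n ∈ Ioc 0 R, g (n + h) =
      ∑ n ∈ Ioc 0 (0 + h), g n - ∑ n ∈ Ioc R (R + h), g n := by
    rw [h1]
    linear_combination h2
  rw [h3]
  refine (norm_sub_le _ _).trans ?_
  linarith [hb 0 h, hb R h]

lemma shift (g : ℕ → ℂ) (hg : ∀ n, ‖g n‖ ≤ 1) (R M : ℕ) (hM : 1 ≤ M) :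
    ‖∑ n ∈ Ioc 0 R, g n‖ ≤ 1 / (M : ℝ) ^ 2 * ∑ n ∈ Ioc 0 R,
      ‖∑ x ∈ Icc 1 M, ∑ y ∈ Icc 1 M, g (n + x * y)‖ + 2 * (M : ℝ) ^ 2 := by
  have hM0 : (0 : ℝ) < M := by exact_mod_cast hM
  set S := ∑ n ∈ Ioc 0 R, g n with hS
  have h1 : (M : ℂ) ^ 2 * S = ∑ x ∈ Icc 1 M, ∑ y ∈ Icc 1 M,
      (S - ∑ n ∈ Ioc 0 R, g (n + x * y)) +
      ∑ n ∈ Ioc 0 R, ∑ x ∈ Icc 1 M, ∑ y ∈ Icc 1 M, g (n + x * y) := by
    have h2 : ∑ n ∈ Ioc 0 R, ∑ x ∈ Icc 1 M, ∑ y ∈ Icc 1 M, g (n + x * y) =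
        ∑ x ∈ Icc 1 M, ∑ y ∈ Icc 1 M, ∑ n ∈ Ioc 0 R, g (n + x * y) := by
      rw [Finset.sum_comm]
      refine Finset.sum_congr rfl fun x _ => ?_
      rw [Finset.sum_comm]
    rw [h2]
    simp only [Finset.sum_sub_distrib, Finset.sum_const, Nat.card_Icc, Nat.add_sub_cancel,
      nsmul_eq_mul]
    ring
  have h3 : (M : ℝ) ^ 2 * ‖S‖ ≤ (M : ℝ) ^ 2 * (2 * (M : ℝ) ^ 2) +
      ∑ n ∈ Ioc 0 R, ‖∑ x ∈ Icc 1 M, ∑ y ∈ Icc 1 M, g (n + x * y)‖ := by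
    have h4 : ‖(M : ℂ) ^ 2 * S‖ = (M : ℝ) ^ 2 * ‖S‖ := by
      rw [norm_mul, norm_pow, Complex.norm_natCast]
    rw [← h4, h1]
    refine (norm_add_le _ _).trans (add_le_add ?_ (norm_sum_le _ _))
    refine (norm_sum_le _ _).trans ?_
    refine (Finset.sum_le_sum (g := fun _ => (M : ℝ) * (2 * (M : ℝ) ^ 2)) fun x hx =>
      (norm_sum_le _ _).trans ?_).trans ?_
    · refine (Finset.sum_le_sum (g := fun _ => 2 * (M : ℝ) ^ 2) fun y hy => ?_).trans ?_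
      · refine (shift_one g hg R (x * y)).trans ?_
        have hx' : (x : ℝ) ≤ M := by exact_mod_cast (Finset.mem_Icc.1 hx).2
        have hy' : (y : ℝ) ≤ M := by exact_mod_cast (Finset.mem_Icc.1 hy).2
        have : (x : ℝ) * y ≤ M * M := mul_le_mul hx' hy' (by positivity) (by positivity)
        push_cast
        nlinarith
      · simp
    · simp only [Finset.sum_const, Nat.card_Icc, Nat.add_sub_cancel, nsmul_eq_mul]
      rw [sq]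
      linarith
  have h8 : (0 : ℝ) < (M : ℝ) ^ 2 := by positivity
  have h9 : (M : ℝ) ^ 2 * ‖S‖ ≤ (M : ℝ) ^ 2 * (1 / (M : ℝ) ^ 2 *
      ∑ n ∈ Ioc 0 R, ‖∑ x ∈ Icc 1 M, ∑ y ∈ Icc 1 M, g (n + x * y)‖ + 2 * (M : ℝ) ^ 2) := by
    have h10 : (M : ℝ) ^ 2 * (1 / (M : ℝ) ^ 2 *
      ∑ n ∈ Ioc 0 R, ‖∑ x ∈ Icc 1 M, ∑ y ∈ Icc 1 M, g (n + x * y)‖ + 2 * (M : ℝ) ^ 2) =
        ∑ n ∈ Ioc 0 R, ‖∑ x ∈ Icc 1 M, ∑ y ∈ Icc 1 M, g (n + x * y)‖ +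
        (M : ℝ) ^ 2 * (2 * (M : ℝ) ^ 2) := by
      field_simp
    rw [h10]
    linarith
  exact le_of_mul_le_mul_left h9 h8

lemma inner_eq (P : ℝ[X]) (k M n : ℕ) (hk : P.natDegree = k) :
    ‖∑ x ∈ Icc 1 M, ∑ y ∈ Icc 1 M, e (P.eval ((n + x * y : ℕ) : ℝ))‖ =
      ‖TT k M (fun j => (taylor (n : ℝ) P).coeff j)‖ := by
  have h1 : ∀ x y : ℕ, e (P.eval ((n + x * y : ℕ) : ℝ)) = e ((taylor (n : ℝ) P).coeff 0) *
      Complex.exp (2 * Real.pi * Complex.I *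
        ((∑ j ∈ Finset.Icc 1 k, (taylor (n : ℝ) P).coeff j * ((x : ℝ) * y) ^ j : ℝ) : ℂ)) := by
    intro x y
    have h2 : P.eval ((n + x * y : ℕ) : ℝ) = (taylor (n : ℝ) P).coeff 0 +
        ∑ j ∈ Finset.Icc 1 k, (taylor (n : ℝ) P).coeff j * ((x : ℝ) * y) ^ j := by
      have h3 : P.eval ((n + x * y : ℕ) : ℝ) = (taylor (n : ℝ) P).eval ((x : ℝ) * y) := by
        rw [taylor_eval]
        congr 1
        push_cast
        ring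
      rw [h3, eval_eq_sum_range, natDegree_taylor, hk, Finset.range_eq_Ico,
        Finset.sum_eq_sum_Ico_succ_bot (by omega)]
      congr 1
      rw [pow_zero, mul_one]
    rw [h2, e_add]
    congr 1
    unfold Pool.Agent.H469R2.NK.e
    congr 1
    push_cast
    ring
  simp_rw [h1, ← mul_sum]
  rw [norm_mul, norm_e, one_mul]
  rfl

/-- **Weyl sums** of degree at least two, saving from the leading coefficient -/
theorem weyl_two : ∃ C : ℕ, ∀ (d k V R : ℕ) (L : ℝ) (P : ℝ[X]), 1 ≤ d → 2 ≤ k → 1 ≤ V →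
    P.natDegree = k → ∀ m s : ℕ, m = 4 * d * k ^ 2 * (k + 1) → s = k ^ 2 + k * m →
    (∀ m' : ℕ, 1 ≤ m' → m' ≤ V → ∀ p : ℤ,
      (V : ℝ) / (s * (V ^ (2 * d)) ^ k : ℕ) ≤ |m' * P.leadingCoeff - p|) →
    4 * C * ((k : ℝ) + m) ^ C + 2 * k * Real.log (15 * (s : ℝ) ^ 2) + 8 * (s : ℝ) ^ 2 * L ≤ Real.log V →
    ‖∑ n ∈ Ioc 0 R, e (P.eval (n : ℝ))‖ ≤ R * Real.exp (-L) + 2 * (((V ^ (2 * d) : ℕ) : ℝ)) ^ 2 := by
  obtain ⟨C, hC⟩ := TT_le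
  refine ⟨C, ?_⟩
  intro d k V R L P hd hk hV hP m s hm hs h hL
  set M : ℕ := V ^ (2 * d) with hM
  have hM1 : 1 ≤ M := Nat.one_le_pow _ _ hV
  have hM0 : (0 : ℝ) < M := by exact_mod_cast hM1
  refine (shift (fun n => e (P.eval (n : ℝ))) (fun n => (norm_e _).le) R M hM1).trans ?_
  refine add_le_add ?_ le_rfl
  have h1 : ∀ n ∈ Ioc 0 R, ‖∑ x ∈ Icc 1 M, ∑ y ∈ Icc 1 M, e (P.eval ((n + x * y : ℕ) : ℝ))‖ ≤
      (M : ℝ) ^ 2 * Real.exp (-L) := by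
    intro n _
    rw [inner_eq P k M n hP]
    refine hC d k V L _ hd hk hV m s hm hs ?_ hL
    intro m' h1 h2 p
    have h3 : (taylor (n : ℝ) P).coeff k = P.leadingCoeff := by
      rw [← hP]; exact coeff_taylor_natDegree ..
    simp only [h3]
    exact h m' h1 h2 p
  have h2 := sum_le_sum h1
  rw [sum_const, Nat.card_Ioc, Nat.sub_zero, nsmul_eq_mul] at h2
  calc _ ≤ 1 / (M : ℝ) ^ 2 * (R * ((M : ℝ) ^ 2 * Real.exp (-L))) := by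
        apply mul_le_mul_of_nonneg_left h2 (by positivity)
    _ = R * Real.exp (-L) := by field_simp

/-- degree one -/
theorem weyl_one (V R : ℕ) (P : ℝ[X]) (hP : P.natDegree = 1) (hV : 1 ≤ V) (hR : 1 ≤ R)
    (h : ∀ p : ℤ, (V : ℝ) / R ≤ |P.leadingCoeff - p|) :
    ‖∑ n ∈ Ioc 0 R, e (P.eval (n : ℝ))‖ ≤ 2 * R / V := by
  have hV0 : (0 : ℝ) < V := by exact_mod_cast hV
  have hR0 : (0 : ℝ) < R := by exact_mod_cast hR
  have h1 : ∀ n : ℕ, P.eval (n : ℝ) = P.coeff 0 + n * P.leadingCoeff := by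
    intro n
    rw [eval_eq_sum_range, hP, Finset.sum_range_succ, Finset.sum_range_one]
    rw [leadingCoeff, hP]
    ring
  have h2 : ∑ n ∈ Ioc 0 R, e (P.eval (n : ℝ)) =
      ∑ n ∈ range R, e ((P.coeff 0 + P.leadingCoeff) + n * P.leadingCoeff) := by
    rw [show Ioc 0 R = Ico 1 (R + 1) from rfl, sum_Ico_eq_sum_range]
    refine sum_congr (by congr 1) fun n _ => ?_
    rw [h1]
    congr 1
    push_cast
    ring
  rw [h2]
  refine (geom P.leadingCoeff (V / R) (by positivity) h _ R).trans (le_of_eq ?_)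
  field_simp

end Pool.Agent.Helper478.Bases
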