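import Pool.Agent.H17.L.R_pool_sql_team_seeded_620a6dc7.Helper478_Bases.LD
import Pool.Agent.H17.L.R_pool_sql_team_seeded_620a6dc7.Helper478_Bases.Alg

/-!
# The Weyl sums with an algebraic leading coefficient
-/

set_option autoImplicit false

namespace Pool.Agent.Helper478.Bases

open Finset Polynomial
open Pool.Agent.H469R2.NK (e norm_e e_add e_zero conj_e)

/-- the size of `V` -/
lemma exists_V (d R : ℕ) (hd : 1 ≤ d) (B : ℝ) (hB0 : 0 ≤ B) (hB : 8 * d * (B + 1) ≤ Real.log R) :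
    ∃ V : ℕ, 1 ≤ V ∧ V ^ (8 * d) ≤ R ∧ B ≤ Real.log V := by
  have hd0 : (0 : ℝ) < d := by exact_mod_cast hd
  set y : ℝ := Real.exp (Real.log R / (8 * d)) with hy
  have hlog : 0 ≤ Real.log R := le_trans (by positivity) hB
  have hR : (0 : ℝ) < R := by
    by_contra hcon
    have : (R : ℝ) = 0 := le_antisymm (not_lt.1 hcon) (Nat.cast_nonneg R)
    rw [this, Real.log_zero] at hB
    have : 0 < 8 * (d : ℝ) * (B + 1) := by positivity
    linarith
  have hy1 : B + 1 ≤ Real.log R / (8 * d) := by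
    rw [le_div_iff₀ (by positivity)]; linarith
  have hy2 : 2 ≤ y := by
    have h1 := Real.add_one_le_exp (Real.log R / (8 * d))
    rw [hy]; linarith
  refine ⟨⌊y⌋₊, ?_, ?_, ?_⟩
  · exact Nat.le_floor (by push_cast; linarith)
  · have h1 : ((⌊y⌋₊ : ℕ) : ℝ) ^ (8 * d) ≤ R := by
      calc ((⌊y⌋₊ : ℕ) : ℝ) ^ (8 * d) ≤ y ^ (8 * d) :=
            pow_le_pow_left₀ (by positivity) (Nat.floor_le (by linarith)) _
        _ = R := by
            rw [hy, ← Real.exp_nat_mul]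
            have : ((8 * d : ℕ) : ℝ) * (Real.log R / (8 * d)) = Real.log R := by
              push_cast; field_simp
            rw [this, Real.exp_log hR]
    exact_mod_cast h1
  · have h1 : y / 2 ≤ ((⌊y⌋₊ : ℕ) : ℝ) := by
      have := Nat.lt_floor_add_one y
      linarith
    calc B ≤ Real.log R / (8 * d) - 1 := by linarith
      _ ≤ Real.log R / (8 * d) - Real.log 2 := by
          have : Real.log 2 ≤ 1 := by
            have := Real.log_two_lt_d9; linarith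
          linarith
      _ = Real.log (y / 2) := by
          rw [Real.log_div (by positivity) (by norm_num), hy, Real.log_exp]
      _ ≤ Real.log ((⌊y⌋₊ : ℕ) : ℝ) := Real.log_le_log (by positivity) h1

/-- the numerical condition of `weyl_two` -/
lemma cond (C d n k m s : ℕ) (hd : 1 ≤ d) (hk : 2 ≤ k) (hkn : k ≤ n) (hm : m = 4 * d * k ^ 2 * (k + 1))
    (hs : s = k ^ 2 + k * m) :
    4 * C * ((k : ℝ) + m) ^ C + 2 * k * Real.log (15 * (s : ℝ) ^ 2) + 8 * (s : ℝ) ^ 2 * ((n : ℝ) + 2) ≤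
      (4 * C * (9 * d) ^ C + 4374 * d ^ 2 : ℕ) * (n : ℝ) ^ (3 * C + 9) := by
  have hn1 : 1 ≤ n := by omega
  have hm1 : m ≤ 8 * d * n ^ 3 := by
    rw [hm]
    calc 4 * d * k ^ 2 * (k + 1) ≤ 4 * d * n ^ 2 * (n + n) := by gcongr
      _ = 8 * d * n ^ 3 := by ring
  have hkm : k + m ≤ 9 * d * n ^ 3 := by
    calc k + m ≤ n ^ 3 + 8 * d * n ^ 3 := by
          apply add_le_add _ hm1
          calc k ≤ n := hkn
            _ = n ^ 1 := (pow_one n).symm
            _ ≤ n ^ 3 := Nat.pow_le_pow_right hn1 (by omega)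
      _ ≤ d * n ^ 3 + 8 * d * n ^ 3 := by
          apply add_le_add _ le_rfl
          exact Nat.le_mul_of_pos_left _ hd
      _ = 9 * d * n ^ 3 := by ring
  have hs1 : s ≤ 9 * d * n ^ 4 := by
    calc s = k * (k + m) := by rw [hs]; ring
      _ ≤ n * (9 * d * n ^ 3) := Nat.mul_le_mul hkn hkm
      _ = 9 * d * n ^ 4 := by ring
  have hs0 : 1 ≤ s := by
    rw [hs]; have : 1 ≤ k ^ 2 := Nat.one_le_pow _ _ (by omega)
    omega
  have hkm' : ((k : ℝ) + m) ≤ 9 * d * (n : ℝ) ^ 3 := by exact_mod_cast hkm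
  have hs1' : (s : ℝ) ≤ 9 * d * (n : ℝ) ^ 4 := by exact_mod_cast hs1
  have hs0' : (0 : ℝ) < s := by exact_mod_cast hs0
  have hk' : (k : ℝ) ≤ n := by exact_mod_cast hkn
  have hn1' : (1 : ℝ) ≤ n := by exact_mod_cast hn1
  have hd0 : (0 : ℝ) < d := by exact_mod_cast hd
  have h1 : ((k : ℝ) + m) ^ C ≤ (9 * (d : ℝ)) ^ C * (n : ℝ) ^ (3 * C + 9) := by
    calc ((k : ℝ) + m) ^ C ≤ (9 * d * (n : ℝ) ^ 3) ^ C := pow_le_pow_left₀ (by positivity) hkm' _
      _ = (9 * (d : ℝ)) ^ C * (n : ℝ) ^ (3 * C) := by rw [mul_pow, ← pow_mul]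
      _ ≤ (9 * (d : ℝ)) ^ C * (n : ℝ) ^ (3 * C + 9) := by
          apply mul_le_mul_of_nonneg_left _ (by positivity)
          exact pow_le_pow_right₀ hn1' (by omega)
  have hs2 : (s : ℝ) ^ 2 ≤ 81 * d ^ 2 * (n : ℝ) ^ 8 := by
    calc (s : ℝ) ^ 2 ≤ (9 * d * (n : ℝ) ^ 4) ^ 2 := pow_le_pow_left₀ hs0'.le hs1' _
      _ = 81 * d ^ 2 * (n : ℝ) ^ 8 := by ring
  have h2 : Real.log (15 * (s : ℝ) ^ 2) ≤ 1215 * d ^ 2 * (n : ℝ) ^ 8 := by
    have := Real.log_le_sub_one_of_pos (by positivity : 0 < 15 * (s : ℝ) ^ 2)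
    linarith
  have h9 : (n : ℝ) ^ 9 ≤ (n : ℝ) ^ (3 * C + 9) := pow_le_pow_right₀ hn1' (by omega)
  have hlog0 : 0 ≤ Real.log (15 * (s : ℝ) ^ 2) := by
    apply Real.log_nonneg
    have : (1 : ℝ) ≤ (s : ℝ) ^ 2 := one_le_pow₀ (by exact_mod_cast hs0)
    linarith
  have h3 : 2 * (k : ℝ) * Real.log (15 * (s : ℝ) ^ 2) ≤ 2430 * d ^ 2 * (n : ℝ) ^ 9 := by
    calc 2 * (k : ℝ) * Real.log (15 * (s : ℝ) ^ 2) ≤ 2 * n * (1215 * d ^ 2 * (n : ℝ) ^ 8) := by gcongr
      _ = 2430 * d ^ 2 * (n : ℝ) ^ 9 := by ring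
  have h4 : 8 * (s : ℝ) ^ 2 * ((n : ℝ) + 2) ≤ 1944 * d ^ 2 * (n : ℝ) ^ 9 := by
    calc 8 * (s : ℝ) ^ 2 * ((n : ℝ) + 2) ≤ 8 * (81 * d ^ 2 * (n : ℝ) ^ 8) * (3 * n) := by
          gcongr
          linarith
      _ = 1944 * d ^ 2 * (n : ℝ) ^ 9 := by ring
  have h5 : 4 * (C : ℝ) * ((k : ℝ) + m) ^ C ≤ 4 * C * ((9 * (d : ℝ)) ^ C * (n : ℝ) ^ (3 * C + 9)) := by
    gcongr
  have h6 : 4374 * (d : ℝ) ^ 2 * (n : ℝ) ^ 9 ≤ 4374 * (d : ℝ) ^ 2 * (n : ℝ) ^ (3 * C + 9) := by gcongr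
  push_cast
  nlinarith

theorem weylBd : ∃ κ : ℕ, 1 ≤ κ ∧ ∀ d K : ℕ, 1 ≤ d → 1 ≤ K → ∃ n₀ : ℕ, ∀ n R : ℕ, n₀ ≤ n →
    (n : ℝ) ^ κ ≤ Real.log R → ∀ x ∈ AlgSet d (Real.exp n), ∀ h : ℕ, 1 ≤ h → h ≤ K →
    ∃ W : ℝ, 0 ≤ W ∧ WeylBd (h * x) n R W ∧ 2 ^ n * W ≤ R := by
  obtain ⟨C, hC⟩ := weyl_two
  refine ⟨3 * C + 10, by omega, ?_⟩
  intro d K hd hK
  have hd0 : (0 : ℝ) < d := by exact_mod_cast hd
  have hK0 : (1 : ℝ) ≤ K := by exact_mod_cast hK
  set B : ℕ := 4 * C * (9 * d) ^ C + 4374 * d ^ 2 + (d * K + 5 * d + 7) with hB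
  refine ⟨8 * d * (B + 1) + 1, ?_⟩
  intro n R hn hR x hx h hh1 hhK
  have hn1 : 1 ≤ n := by omega
  have hn1' : (1 : ℝ) ≤ n := by exact_mod_cast hn1
  have hBn : (8 : ℝ) * d * ((B : ℝ) * (n : ℝ) ^ (3 * C + 9) + 1) ≤ Real.log R := by
    refine le_trans ?_ hR
    have h1 : (8 : ℝ) * d * (B + 1) ≤ n := by exact_mod_cast (by omega : 8 * d * (B + 1) ≤ n)
    have h2 : (1 : ℝ) ≤ (n : ℝ) ^ (3 * C + 9) := one_le_pow₀ hn1'
    calc (8 : ℝ) * d * ((B : ℝ) * (n : ℝ) ^ (3 * C + 9) + 1) ≤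
          (8 : ℝ) * d * ((B : ℝ) * (n : ℝ) ^ (3 * C + 9) + (n : ℝ) ^ (3 * C + 9)) := by gcongr
      _ = (8 : ℝ) * d * (B + 1) * (n : ℝ) ^ (3 * C + 9) := by ring
      _ ≤ n * (n : ℝ) ^ (3 * C + 9) := by gcongr
      _ = (n : ℝ) ^ (3 * C + 10) := by ring
  obtain ⟨V, hV1, hVR, hVB⟩ := exists_V d R hd ((B : ℝ) * (n : ℝ) ^ (3 * C + 9)) (by positivity) hBn
  have hV0 : (0 : ℝ) < V := by exact_mod_cast hV1
  have hV1' : (1 : ℝ) ≤ V := by exact_mod_cast hV1
  have hR1 : 1 ≤ R := (Nat.one_le_pow _ _ hV1).trans hVR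
  have hR0 : (0 : ℝ) < R := by exact_mod_cast hR1
  set M : ℕ := V ^ (2 * d) with hM
  have hnp : (n : ℝ) ≤ (n : ℝ) ^ (3 * C + 9) := by
    calc (n : ℝ) = (n : ℝ) ^ 1 := (pow_one _).symm
      _ ≤ _ := pow_le_pow_right₀ hn1' (by omega)
  -- the three size conditions
  have hBsplit : ((4 * C * (9 * d) ^ C + 4374 * d ^ 2 : ℕ) : ℝ) * (n : ℝ) ^ (3 * C + 9) +
      ((d * K + 5 * d + 7 : ℕ) : ℝ) * (n : ℝ) ^ (3 * C + 9) = (B : ℝ) * (n : ℝ) ^ (3 * C + 9) := by
    rw [hB]; push_cast; ring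
  have hlow : ((d * K + 5 * d + 7 : ℕ) : ℝ) * n ≤ Real.log V := by
    have h1 : (0 : ℝ) ≤ ((4 * C * (9 * d) ^ C + 4374 * d ^ 2 : ℕ) : ℝ) * (n : ℝ) ^ (3 * C + 9) := by
      positivity
    have h2 : ((d * K + 5 * d + 7 : ℕ) : ℝ) * n ≤ ((d * K + 5 * d + 7 : ℕ) : ℝ) * (n : ℝ) ^ (3 * C + 9) := by
      gcongr
    linarith
  have hhigh : ((4 * C * (9 * d) ^ C + 4374 * d ^ 2 : ℕ) : ℝ) * (n : ℝ) ^ (3 * C + 9) ≤ Real.log V := by
    have h1 : (0 : ℝ) ≤ ((d * K + 5 * d + 7 : ℕ) : ℝ) * (n : ℝ) ^ (3 * C + 9) := by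
      positivity
    linarith
  have hV2 : (2 : ℝ) ^ (n + 3) ≤ V := by
    have h1 : (2 : ℝ) ^ (n + 3) = Real.exp ((n + 3 : ℕ) * Real.log 2) := by
      rw [Real.exp_nat_mul, Real.exp_log (by norm_num)]
    rw [h1, ← Real.exp_log hV0, Real.exp_le_exp]
    have h2 : Real.log 2 ≤ 1 := by
      have := Real.log_two_lt_d9; linarith
    have h3 : ((n + 3 : ℕ) : ℝ) * Real.log 2 ≤ (n + 3 : ℕ) * 1 := by gcongr
    have h4 : ((n + 3 : ℕ) : ℝ) * 1 ≤ ((d * K + 5 * d + 7 : ℕ) : ℝ) * n := by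
      push_cast
      have : (0 : ℝ) ≤ ((d : ℝ) * K + 5 * d) * n := by positivity
      nlinarith
    linarith
  set Λ : ℝ := ((d : ℝ) + 1) ^ 2 * (Real.exp n + 2) ^ (d + 1) with hΛ
  have hΛ0 : 0 < Λ := by positivity
  have hΛV : Λ * (K : ℝ) ^ (d - 1) ≤ V := by
    have e1 : ((d : ℝ) + 1) ^ 2 ≤ Real.exp (2 * d) := by
      calc ((d : ℝ) + 1) ^ 2 ≤ (Real.exp d) ^ 2 := by
            apply pow_le_pow_left₀ (by positivity) (Real.add_one_le_exp _)
        _ = Real.exp (2 * d) := by rw [← Real.exp_nat_mul]; norm_num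
    have e2 : Real.exp n + 2 ≤ Real.exp (3 * n) := by
      have h1 : 2 ≤ Real.exp n := by have := Real.add_one_le_exp (n : ℝ); linarith
      have h2 : Real.exp (3 * n) = Real.exp n * Real.exp n * Real.exp n := by
        rw [← Real.exp_add, ← Real.exp_add]; congr 1; ring
      rw [h2]
      nlinarith
    have e3 : (Real.exp n + 2) ^ (d + 1) ≤ Real.exp (3 * n * (d + 1)) := by
      calc (Real.exp n + 2) ^ (d + 1) ≤ (Real.exp (3 * n)) ^ (d + 1) :=
            pow_le_pow_left₀ (by positivity) e2 _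
        _ = Real.exp (3 * n * (d + 1)) := by rw [← Real.exp_nat_mul]; congr 1; push_cast; ring
    have e4 : (K : ℝ) ^ (d - 1) ≤ Real.exp (d * K) := by
      calc (K : ℝ) ^ (d - 1) ≤ (K : ℝ) ^ d := pow_le_pow_right₀ hK0 (by omega)
        _ ≤ (Real.exp K) ^ d := by
            apply pow_le_pow_left₀ (by positivity)
            have := Real.add_one_le_exp (K : ℝ); linarith
        _ = Real.exp (d * K) := by rw [← Real.exp_nat_mul]
    calc Λ * (K : ℝ) ^ (d - 1) ≤ (Real.exp (2 * d) * Real.exp (3 * n * (d + 1))) * Real.exp (d * K) := by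
          rw [hΛ]; gcongr
      _ = Real.exp (2 * d + 3 * n * (d + 1) + d * K) := by rw [← Real.exp_add, ← Real.exp_add]
      _ ≤ Real.exp (Real.log V) := by
          rw [Real.exp_le_exp]
          refine le_trans ?_ hlow
          push_cast
          have h1 : (2 : ℝ) * d ≤ 2 * d * n := by nlinarith
          have h2 : (d : ℝ) * K ≤ d * K * n := by
            have : (0 : ℝ) ≤ d * K := by positivity
            nlinarith
          nlinarith
      _ = V := Real.exp_log hV0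
  -- Liouville
  have hLio : ∀ a : ℝ, (a = h * x ∨ a = -(h * x)) → ∀ m' : ℕ, 1 ≤ m' → ∀ p : ℤ,
      1 ≤ Λ * ((m' * h : ℕ) : ℝ) ^ (d - 1) * |m' * a - p| := by
    intro a ha m' hm' p
    rcases ha with rfl | rfl
    · have h1 := liouville d (Real.exp n) (Real.one_le_exp (by positivity)) x hx (m' * h)
        (Nat.mul_pos hm' hh1) p
      convert h1 using 3
      push_cast; ring
    · have h1 := liouville d (Real.exp n) (Real.one_le_exp (by positivity)) x hx (m' * h)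
        (Nat.mul_pos hm' hh1) (-p)
      convert h1 using 2
      rw [← abs_neg]
      congr 1
      push_cast; ring
  refine ⟨R * Real.exp (-((n : ℝ) + 2)) + 2 * (M : ℝ) ^ 2 + 2 * R / V, by positivity, ?_, ?_⟩
  · intro P hP1 hPn hlc
    obtain ⟨k, hk⟩ : ∃ k, P.natDegree = k := ⟨_, rfl⟩
    rw [hk] at hP1 hPn
    rcases Nat.lt_or_ge k 2 with hk2 | hk2
    · -- degree one
      have hk1 : P.natDegree = 1 := by omega
      have h1 := weyl_one V R P hk1 hV1 hR1 (by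
        intro p
        have h2 := hLio P.leadingCoeff hlc 1 le_rfl p
        rw [one_mul, Nat.cast_one, one_mul] at h2
        have h3 : Λ * (h : ℝ) ^ (d - 1) ≤ V := by
          refine le_trans ?_ hΛV
          gcongr
        have h4 : (V : ℝ) * V ≤ R := by
          have : V ^ 2 ≤ R := (Nat.pow_le_pow_right hV1 (by omega)).trans hVR
          rw [← sq]; exact_mod_cast this
        have h5 : (1 : ℝ) ≤ V * |P.leadingCoeff - p| :=
          h2.trans (mul_le_mul_of_nonneg_right h3 (abs_nonneg _))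
        rw [div_le_iff₀ hR0]
        calc (V : ℝ) = V * 1 := (mul_one _).symm
          _ ≤ V * (V * |P.leadingCoeff - p|) := by gcongr
          _ = (V * V) * |P.leadingCoeff - p| := by ring
          _ ≤ R * |P.leadingCoeff - p| := by gcongr
          _ = |P.leadingCoeff - p| * R := mul_comm _ _)
      refine h1.trans ?_
      have : 0 ≤ R * Real.exp (-((n : ℝ) + 2)) + 2 * (M : ℝ) ^ 2 := by positivity
      linarith
    · -- degree at least two
      obtain ⟨m, hm⟩ : ∃ m, m = 4 * d * k ^ 2 * (k + 1) := ⟨_, rfl⟩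
      obtain ⟨s, hs⟩ : ∃ s, s = k ^ 2 + k * m := ⟨_, rfl⟩
      have hs1 : 1 ≤ s := by
        rw [hs]; have : 1 ≤ k ^ 2 := Nat.one_le_pow _ _ (by omega)
        omega
      have hs1' : (1 : ℝ) ≤ s := by exact_mod_cast hs1
      have h1 := hC d k V R ((n : ℝ) + 2) P hd hk2 hV1 hk m s hm hs (by
        intro m' hm1 hm2 p
        have h2 := hLio P.leadingCoeff hlc m' hm1 p
        have h3 : Λ * ((m' * h : ℕ) : ℝ) ^ (d - 1) ≤ (V : ℝ) ^ d := by
          have e1 : ((m' * h : ℕ) : ℝ) ^ (d - 1) ≤ (V : ℝ) ^ (d - 1) * (K : ℝ) ^ (d - 1) := by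
            rw [← mul_pow]
            push_cast
            gcongr
          calc Λ * ((m' * h : ℕ) : ℝ) ^ (d - 1) ≤ Λ * ((V : ℝ) ^ (d - 1) * (K : ℝ) ^ (d - 1)) := by gcongr
            _ = (Λ * (K : ℝ) ^ (d - 1)) * (V : ℝ) ^ (d - 1) := by ring
            _ ≤ V * (V : ℝ) ^ (d - 1) := by gcongr
            _ = (V : ℝ) ^ d := by rw [← pow_succ', Nat.sub_add_cancel hd]
        have h4 : (1 : ℝ) ≤ (V : ℝ) ^ d * |m' * P.leadingCoeff - p| :=
          h2.trans (mul_le_mul_of_nonneg_right h3 (abs_nonneg _))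
        have h5 : (V : ℝ) * (V : ℝ) ^ d ≤ ((s * M ^ k : ℕ) : ℝ) := by
          have e1 : V * V ^ d ≤ s * M ^ k := by
            rw [hM, ← pow_mul, ← pow_succ']
            calc V ^ (d + 1) ≤ V ^ (2 * d * k) := by
                  apply Nat.pow_le_pow_right hV1
                  nlinarith
              _ = 1 * V ^ (2 * d * k) := (one_mul _).symm
              _ ≤ s * V ^ (2 * d * k) := Nat.mul_le_mul hs1 le_rfl
          exact_mod_cast e1
        have h6 : (0 : ℝ) < ((s * M ^ k : ℕ) : ℝ) := lt_of_lt_of_le (by positivity) h5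
        rw [div_le_iff₀ h6]
        calc (V : ℝ) = V * 1 := (mul_one _).symm
          _ ≤ V * ((V : ℝ) ^ d * |m' * P.leadingCoeff - p|) := by gcongr
          _ = (V * (V : ℝ) ^ d) * |m' * P.leadingCoeff - p| := by ring
          _ ≤ ((s * M ^ k : ℕ) : ℝ) * |m' * P.leadingCoeff - p| := by gcongr
          _ = _ := mul_comm _ _) ((cond C d n k m s hd hk2 hPn hm hs).trans hhigh)
      refine h1.trans ?_
      have : 0 ≤ 2 * (R : ℝ) / V := by positivity
      linarith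
  · -- the size of the bound
    have h1 : (2 : ℝ) ^ n * (R * Real.exp (-((n : ℝ) + 2))) ≤ R / 4 := by
      have e1 : (2 : ℝ) ^ n ≤ Real.exp n := by
        calc (2 : ℝ) ^ n ≤ (Real.exp 1) ^ n := by
              apply pow_le_pow_left₀ (by norm_num)
              have := Real.exp_one_gt_d9; linarith
          _ = Real.exp n := by rw [← Real.exp_nat_mul, mul_one]
      have e2 : Real.exp n * Real.exp (-((n : ℝ) + 2)) ≤ 1 / 4 := by
        rw [← Real.exp_add]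
        have : (n : ℝ) + -(n + 2) = -2 := by ring
        rw [this, Real.exp_neg]
        rw [inv_eq_one_div]
        apply one_div_le_one_div_of_le (by norm_num)
        have h3 : Real.exp 2 = Real.exp 1 * Real.exp 1 := by rw [← Real.exp_add]; norm_num
        have h4 := Real.exp_one_gt_d9
        rw [h3]; nlinarith
      calc (2 : ℝ) ^ n * (R * Real.exp (-((n : ℝ) + 2))) ≤
            Real.exp n * (R * Real.exp (-((n : ℝ) + 2))) := by gcongr
        _ = R * (Real.exp n * Real.exp (-((n : ℝ) + 2))) := by ring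
        _ ≤ R * (1 / 4) := by gcongr
        _ = R / 4 := by ring
    have h2 : (2 : ℝ) ^ n * (2 * R / V) ≤ R / 4 := by
      have e1 : (2 : ℝ) ^ n * (2 * R / V) = (2 ^ (n + 3) * R / V) / 4 := by
        rw [pow_add]; ring
      rw [e1]
      have : (2 : ℝ) ^ (n + 3) * R / V ≤ R := by
        rw [div_le_iff₀ hV0, mul_comm]
        gcongr
      linarith
    have h3 : (2 : ℝ) ^ n * (2 * (M : ℝ) ^ 2) ≤ R / 4 := by
      have hVM : (V : ℝ) ≤ (M : ℝ) ^ 2 := by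
        have : V ≤ M ^ 2 := by
          rw [hM, ← pow_mul]
          calc V = V ^ 1 := (pow_one V).symm
            _ ≤ _ := Nat.pow_le_pow_right hV1 (by omega)
        exact_mod_cast this
      have hMR : (M : ℝ) ^ 2 * (M : ℝ) ^ 2 ≤ R := by
        have : M ^ 2 * M ^ 2 ≤ R := by
          rw [hM, ← pow_mul, ← pow_add]
          have e1 : 2 * d * 2 + 2 * d * 2 = 8 * d := by ring
          rw [e1]; exact hVR
        exact_mod_cast this
      calc (2 : ℝ) ^ n * (2 * (M : ℝ) ^ 2) = (2 ^ (n + 3) * (M : ℝ) ^ 2) / 4 := by rw [pow_add]; ring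
        _ ≤ ((M : ℝ) ^ 2 * (M : ℝ) ^ 2) / 4 := by
            have := hV2.trans hVM
            gcongr
        _ ≤ R / 4 := by gcongr
    linarith

end Pool.Agent.Helper478.Bases
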